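import Pool.Agent.helper45.BR.Spec

/-!
# Project br:, module WEY: Weyl's lemma
-/

set_option autoImplicit false

open Complex Metric Set Filter Topology MeasureTheory MPS Pool.Agent.helper98.ILF
  Pool.Agent.helper16.Multibrot

noncomputable section

namespace BR

open scoped Convolution

/-- the bilinear map `(w, r) ↦ r • w`. -/
def WEY_L : ℂ →L[ℝ] ℝ →L[ℝ] ℂ := (ContinuousLinearMap.lsmul ℝ ℝ : ℝ →L[ℝ] ℂ →L[ℝ] ℂ).flip

theorem WEY_L_apply (w : ℂ) (r : ℝ) : WEY_L w r = (r : ℂ) * w := by
  simp [WEY_L]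

/-- the regularisation of a function with `∫ u dbar φ = 0` is holomorphic. -/
theorem WEY_reg (u : ℂ → ℂ) (hu : Continuous u)
    (h : ∀ φ : ℂ → ℂ, ContDiff ℝ 2 φ → HasCompactSupport φ → ∫ z : ℂ, u z * dbar φ z = 0)
    (η : ℂ → ℝ) (hη : ContDiff ℝ 2 η) (hc : HasCompactSupport η) :
    Differentiable ℂ (u ⋆[WEY_L, volume] η) := by
  have hη1 : ContDiff ℝ 1 η := hη.of_le (by norm_num)
  have huL : LocallyIntegrable u := hu.locallyIntegrable
  intro x
  rw [differentiableAt_complex_iff_differentiableAt_real]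
  have hD := hc.hasFDerivAt_convolution_right WEY_L huL hη1 x
  refine ⟨hD.differentiableAt, ?_⟩
  rw [hD.fderiv]
  have hc' : HasCompactSupport (fderiv ℝ η) := hc.fderiv ℝ
  have hcont' : Continuous (fderiv ℝ η) := hη1.continuous_fderiv (by norm_num)
  rw [convolution_precompR_apply WEY_L huL hc' hcont' x I,
    convolution_precompR_apply WEY_L huL hc' hcont' x 1]
  simp only [convolution_def, WEY_L_apply]
  -- the test function
  set φ : ℂ → ℂ := fun t => ((η (x - t) : ℝ) : ℂ) with hφ
  have hsub : ∀ t : ℂ, HasFDerivAt (fun s : ℂ => x - s) (-(ContinuousLinearMap.id ℝ ℂ)) t := by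
    intro t
    exact (hasFDerivAt_id t).const_sub x
  have hφd : ∀ t v : ℂ, fderiv ℝ φ t v = -((fderiv ℝ η (x - t) v : ℝ) : ℂ) := by
    intro t v
    have h1 : HasFDerivAt (fun s : ℂ => η (x - s))
        ((fderiv ℝ η (x - t)).comp (-(ContinuousLinearMap.id ℝ ℂ))) t :=
      ((hη1.differentiable (by norm_num)) (x - t)).hasFDerivAt.comp t (hsub t)
    have h2 : HasFDerivAt φ (Complex.ofRealCLM.comp
        ((fderiv ℝ η (x - t)).comp (-(ContinuousLinearMap.id ℝ ℂ)))) t :=
      Complex.ofRealCLM.hasFDerivAt.comp t h1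
    rw [h2.fderiv]
    simp
  have hφc : ContDiff ℝ 2 φ := by
    have h1 : ContDiff ℝ 2 (fun s : ℂ => η (x - s)) := hη.comp (contDiff_const.sub contDiff_id)
    exact Complex.ofRealCLM.contDiff.comp h1
  have hφs : HasCompactSupport φ := by
    have h1 : HasCompactSupport (fun s : ℂ => η (x - s)) :=
      hc.comp_homeomorph (Homeomorph.subLeft x)
    exact h1.comp_left (g := fun r : ℝ => (r : ℂ)) (by simp)
  have h0 := h φ hφc hφs
  have hA : ∀ v : ℂ, Integrable (fun t : ℂ => ((fderiv ℝ η (x - t) v : ℝ) : ℂ) * u t) := by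
    intro v
    apply Continuous.integrable_of_hasCompactSupport
    · have h1 : Continuous fun t : ℂ => fderiv ℝ η (x - t) v :=
        (hcont'.comp (continuous_const.sub continuous_id)).clm_apply continuous_const
      exact (Complex.continuous_ofReal.comp h1).mul hu
    · have h1 : HasCompactSupport (fun t : ℂ => fderiv ℝ η (x - t)) :=
        hc'.comp_homeomorph (Homeomorph.subLeft x)
      have h2 : HasCompactSupport (fun t : ℂ => ((fderiv ℝ η (x - t) v : ℝ) : ℂ)) :=
        h1.comp_left (g := fun l : ℂ →L[ℝ] ℝ => ((l v : ℝ) : ℂ)) (by simp)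
      exact h2.mul_right
  have hsum : ∫ t : ℂ, u t * dbar φ t =
      -((∫ t : ℂ, ((fderiv ℝ η (x - t) 1 : ℝ) : ℂ) * u t) +
        I * ∫ t : ℂ, ((fderiv ℝ η (x - t) I : ℝ) : ℂ) * u t) / 2 := by
    rw [← integral_const_mul, ← integral_add (hA 1) ((hA I).const_mul I), ← integral_neg,
      ← integral_div]
    congr 1
    funext t
    unfold dbar
    rw [hφd, hφd]
    ring
  rw [hsum] at h0
  have h3 : (∫ t : ℂ, ((fderiv ℝ η (x - t) 1 : ℝ) : ℂ) * u t) +
        I * ∫ t : ℂ, ((fderiv ℝ η (x - t) I : ℝ) : ℂ) * u t = 0 := by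
    have : (2 : ℂ) ≠ 0 := two_ne_zero
    field_simp at h0
    linear_combination -h0
  rw [smul_eq_mul]
  linear_combination -I * h3 + (∫ t : ℂ, ((fderiv ℝ η (x - t) I : ℝ) : ℂ) * u t) * I_sq

/-- the standard bumps. -/
def WEY_b (j : ℕ) : ContDiffBump (0 : ℂ) where
  rIn := 1 / (2 * (j + 1))
  rOut := 1 / (j + 1)
  rIn_pos := by positivity
  rIn_lt_rOut := by
    have : (0 : ℝ) < j + 1 := by positivity
    rw [div_lt_div_iff₀ (by positivity) this]
    linarith

theorem WEY : WEY_stmt := by
  intro u hu h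
  set F : ℕ → ℂ → ℂ := fun j => u ⋆[WEY_L, volume] ((WEY_b j).normed volume) with hF
  have hFd : ∀ j, Differentiable ℂ (F j) := by
    intro j
    exact WEY_reg u hu h _ ((WEY_b j).contDiff_normed) ((WEY_b j).hasCompactSupport_normed)
  have hFe : ∀ j, F j = (((WEY_b j).normed volume)
      ⋆[(ContinuousLinearMap.lsmul ℝ ℝ : ℝ →L[ℝ] ℂ →L[ℝ] ℂ), volume] u) := by
    intro j
    exact convolution_flip (L := (ContinuousLinearMap.lsmul ℝ ℝ : ℝ →L[ℝ] ℂ →L[ℝ] ℂ))
  have hloc : TendstoLocallyUniformlyOn F u atTop univ := by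
    rw [tendstoLocallyUniformlyOn_univ, Metric.tendstoLocallyUniformly_iff]
    intro ε hε x
    have hK : IsCompact (closedBall x 2) := isCompact_closedBall x 2
    have hun := hK.uniformContinuousOn_of_continuous hu.continuousOn
    rw [Metric.uniformContinuousOn_iff] at hun
    obtain ⟨δ, hδ, hun⟩ := hun (ε / 2) (by positivity)
    refine ⟨ball x 1, ball_mem_nhds x one_pos, ?_⟩
    obtain ⟨N, hN⟩ := exists_nat_one_div_lt (lt_min hδ one_pos)
    filter_upwards [eventually_ge_atTop N] with j hj y hy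
    rw [hFe, dist_comm]
    have hr : (WEY_b j).rOut < min δ 1 := by
      refine lt_of_le_of_lt ?_ hN
      change (1 : ℝ) / (j + 1) ≤ 1 / (N + 1)
      have : (N : ℝ) ≤ j := by exact_mod_cast hj
      exact one_div_le_one_div_of_le (by positivity) (by linarith)
    refine lt_of_le_of_lt (ContDiffBump.dist_normed_convolution_le (ε := ε / 2)
      hu.aestronglyMeasurable ?_) (by linarith)
    intro z hz
    rw [mem_ball] at hy hz
    have h1 : dist z y < δ := hz.trans (hr.trans_le (min_le_left _ _))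
    have h2 : dist z y < 1 := hz.trans (hr.trans_le (min_le_right _ _))
    refine (hun z ?_ y ?_ h1).le
    · rw [mem_closedBall]
      have := dist_triangle z y x
      linarith
    · rw [mem_closedBall]
      linarith
  have hfin := hloc.differentiableOn (Eventually.of_forall fun j => (hFd j).differentiableOn)
    isOpen_univ
  exact fun z => (hfin z (mem_univ z)).differentiableAt univ_mem

end BR
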