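import Mathlib

/-!
# The Brouwer fixed point theorem and the Poincare-Miranda theorem

Milnor-Rogers volume proof: a `C^1` retraction `r` of the closed unit ball onto the sphere would
make `t ↦ ∫ det (1 + t (Dr - 1))` a polynomial which is constant for small `t` and zero at `t = 1`.

Main results: `brouwer_ball`, `brouwer_convex`, `poincare_miranda`.
-/

namespace Pool.Agent.helper55.BR

open MeasureTheory Set Metric

section detpos

variable {E : Type*} [NormedAddCommGroup E] [NormedSpace ℝ E] [FiniteDimensional ℝ E]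

/-- `1 + A` has positive determinant when `‖A‖ < 1`. -/
theorem det_pos_of_norm_lt_one (A : E →L[ℝ] E) (hA : ‖A‖ < 1) :
    0 < (ContinuousLinearMap.id ℝ E + A).det := by
  have hne : ∀ s : ℝ, s ∈ Icc (0:ℝ) 1 → (ContinuousLinearMap.id ℝ E + s • A).det ≠ 0 := by
    intro s hs hdet
    have hker : ∃ v : E, v ≠ 0 ∧ (ContinuousLinearMap.id ℝ E + s • A) v = 0 := by
      have h1 : ¬ (LinearMap.ker ((ContinuousLinearMap.id ℝ E + s • A : E →L[ℝ] E) : E →ₗ[ℝ] E) = ⊥) := by
        intro hk
        have := LinearMap.bot_lt_ker_of_det_eq_zero (f := ((ContinuousLinearMap.id ℝ E + s • A : E →L[ℝ] E) : E →ₗ[ℝ] E)) hdet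
        rw [hk] at this
        exact lt_irrefl _ this
      obtain ⟨v, hv, hv0⟩ := (Submodule.ne_bot_iff _).mp h1
      exact ⟨v, hv0, by simpa using hv⟩
    obtain ⟨v, hv0, hv⟩ := hker
    have h2 : v = - (s • A v) := by
      have : v + s • A v = 0 := by simpa using hv
      exact eq_neg_of_add_eq_zero_left this
    have h3 : ‖v‖ ≤ ‖A‖ * ‖v‖ := by
      calc ‖v‖ = ‖s • A v‖ := by rw [h2, norm_neg]; simp [← h2]
        _ = |s| * ‖A v‖ := by rw [norm_smul]; rfl
        _ ≤ 1 * (‖A‖ * ‖v‖) := by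
            apply mul_le_mul _ (A.le_opNorm v) (norm_nonneg _) zero_le_one
            rw [abs_of_nonneg hs.1]; exact hs.2
        _ = ‖A‖ * ‖v‖ := one_mul _
    have h4 : 0 < ‖v‖ := norm_pos_iff.mpr hv0
    nlinarith
  have hcont : ContinuousOn (fun s : ℝ => (ContinuousLinearMap.id ℝ E + s • A).det) (Icc 0 1) := by
    apply Continuous.continuousOn
    exact ContinuousLinearMap.continuous_det.comp (by fun_prop)
  have h0 : (ContinuousLinearMap.id ℝ E + (0:ℝ) • A).det = 1 := by
    simp [ContinuousLinearMap.det]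
  by_contra hneg
  push Not at hneg
  have himg := intermediate_value_Icc' (zero_le_one) hcont
  have : (0:ℝ) ∈ Icc ((ContinuousLinearMap.id ℝ E + (1:ℝ) • A).det) ((ContinuousLinearMap.id ℝ E + (0:ℝ) • A).det) := by
    rw [h0, one_smul]; exact ⟨hneg, zero_le_one⟩
  obtain ⟨s, hs, hs0⟩ := himg this
  exact hne s hs hs0

/-- Interpolation: the value of `t ↦ det (1 + t A)` at `t = 1` from small values of `t`. -/
theorem det_interp (ε : ℝ) (hε : 0 < ε) :
    ∃ (s : Finset ℕ) (v c : ℕ → ℝ), (∀ i ∈ s, 0 < v i ∧ v i < ε) ∧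
      ∀ A : E →L[ℝ] E, (ContinuousLinearMap.id ℝ E + A).det
        = ∑ i ∈ s, c i * (ContinuousLinearMap.id ℝ E + (v i) • A).det := by
  classical
  set n := Module.finrank ℝ E with hn
  let b := Module.finBasis ℝ E
  let s := Finset.range (n + 1)
  let v : ℕ → ℝ := fun i => ε / (i + 2)
  have hinj : Set.InjOn v s := by
    intro i _ j _ hij
    have h1 : (0:ℝ) < i + 2 := by positivity
    have h2 : (0:ℝ) < j + 2 := by positivity
    have h3 : ε / ((i:ℝ) + 2) = ε / ((j:ℝ) + 2) := hij
    rw [div_eq_div_iff h1.ne' h2.ne'] at h3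
    have h4 := mul_left_cancel₀ hε.ne' h3
    have : (i : ℝ) = j := by linarith
    exact_mod_cast this
  refine ⟨s, v, fun i => (Lagrange.basis s v i).eval 1, ?_, ?_⟩
  · intro i _
    have h1 : (0:ℝ) < i + 2 := by positivity
    refine ⟨by positivity, ?_⟩
    show ε / ((i:ℝ) + 2) < ε
    rw [div_lt_iff₀ h1]
    nlinarith
  · intro A
    let M : Matrix (Fin n) (Fin n) ℝ := LinearMap.toMatrix b b (A : E →ₗ[ℝ] E)
    let P : Polynomial ℝ := Matrix.det ((Polynomial.X : Polynomial ℝ) • M.map Polynomial.C + (1 : Matrix (Fin n) (Fin n) ℝ).map Polynomial.C)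
    have hP : ∀ t : ℝ, P.eval t = (ContinuousLinearMap.id ℝ E + t • A).det := by
      intro t
      have h1 : (ContinuousLinearMap.id ℝ E + t • A).det = Matrix.det (1 + t • M) := by
        show LinearMap.det _ = _
        rw [← LinearMap.det_toMatrix b]
        congr 1
        have : ((ContinuousLinearMap.id ℝ E + t • A : E →L[ℝ] E) : E →ₗ[ℝ] E)
            = LinearMap.id + t • (A : E →ₗ[ℝ] E) := by ext; simp
        rw [this, map_add, map_smul, LinearMap.toMatrix_id]
      rw [h1]
      show Polynomial.eval t (Matrix.det _) = _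
      rw [← Polynomial.coe_evalRingHom, RingHom.map_det]
      congr 1
      ext i j
      simp only [RingHom.mapMatrix_apply, Matrix.map_apply, Matrix.add_apply, Matrix.smul_apply,
        Polynomial.coe_evalRingHom, smul_eq_mul, Polynomial.eval_add, Polynomial.eval_mul,
        Polynomial.eval_X, Polynomial.eval_C]
      ring
    have hdeg : P.degree < (s.card : ℕ) := by
      have h1 : P.natDegree ≤ n := by
        have := Polynomial.natDegree_det_X_add_C_le M (1 : Matrix (Fin n) (Fin n) ℝ)
        rwa [Fintype.card_fin] at this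
      have h2 : s.card = n + 1 := by simp [s]
      rw [h2]
      refine lt_of_le_of_lt Polynomial.degree_le_natDegree ?_
      exact_mod_cast Nat.lt_succ_of_le h1
    have hint := Lagrange.eq_interpolate (f := P) hinj hdeg
    have h1 := hP 1
    rw [one_smul] at h1
    rw [← h1]
    conv_lhs => rw [hint]
    rw [Lagrange.interpolate_apply, Polynomial.eval_finsetSum]
    apply Finset.sum_congr rfl
    intro i _
    rw [Polynomial.eval_mul, Polynomial.eval_C, hP]
    ring

end detpos

section vol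

variable {E : Type*} [NormedAddCommGroup E] [NormedSpace ℝ E] [FiniteDimensional ℝ E]
  [MeasurableSpace E] [BorelSpace E] (μ : Measure E) [μ.IsAddHaarMeasure]

omit [MeasurableSpace E] [BorelSpace E] in
/-- small Lipschitz perturbations of the identity supported in the unit ball preserve volume -/
theorem pert_image (g : E → E) (K : NNReal) (hg : LipschitzWith K g)
    (h0 : ∀ x, 1 ≤ ‖x‖ → g x = 0) (t : ℝ) (ht0 : 0 < t) (ht : t * K < 1) :
    InjOn (fun x => x + t • g x) univ ∧ (fun x => x + t • g x) '' ball 0 1 = ball 0 1 := by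
  have hinj : ∀ x y : E, x + t • g x = y + t • g y → x = y := by
    intro x y h
    have h1 : x - y = t • (g y - g x) := by
      rw [smul_sub, sub_eq_sub_iff_add_eq_add, h, add_comm]
    have h2 : ‖x - y‖ ≤ t * K * ‖x - y‖ := by
      calc ‖x - y‖ = t * ‖g y - g x‖ := by
            conv_lhs => rw [h1]
            rw [norm_smul, Real.norm_of_nonneg ht0.le]
        _ ≤ t * (K * ‖y - x‖) := by
            apply mul_le_mul_of_nonneg_left _ ht0.le
            exact hg.norm_sub_le y x
        _ = t * K * ‖x - y‖ := by rw [norm_sub_rev]; ring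
    have h3 : ‖x - y‖ ≤ 0 := by nlinarith [norm_nonneg (x - y)]
    exact sub_eq_zero.mp (norm_le_zero_iff.mp h3)
  refine ⟨fun x _ y _ h => hinj x y h, ?_⟩
  apply Subset.antisymm
  · rintro y ⟨x, hx, rfl⟩
    simp only [mem_ball, dist_zero_right] at hx ⊢
    by_contra hcon
    push Not at hcon
    have h1 : (x + t • g x) + t • g (x + t • g x) = x + t • g x := by
      rw [h0 _ hcon, smul_zero, add_zero]
    have h2 := hinj _ _ h1
    rw [h2] at hcon
    linarith
  · intro y hy
    have hc : ContractingWith (t.toNNReal * K) (fun x => y - t • g x) := by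
      refine ⟨?_, ?_⟩
      · rw [← NNReal.coe_lt_coe]
        push_cast
        rw [Real.coe_toNNReal _ ht0.le]
        exact ht
      · apply LipschitzWith.of_dist_le_mul
        intro a b
        rw [dist_eq_norm, dist_eq_norm]
        have : y - t • g a - (y - t • g b) = t • (g b - g a) := by rw [smul_sub]; abel
        rw [this, norm_smul, Real.norm_of_nonneg ht0.le]
        push_cast
        rw [Real.coe_toNNReal _ ht0.le, mul_assoc]
        apply mul_le_mul_of_nonneg_left _ ht0.le
        rw [norm_sub_rev a b]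
        exact hg.norm_sub_le b a
    have hfix := hc.fixedPoint_isFixedPt
    set x := hc.fixedPoint with hx
    have h1 : x + t • g x = y := by
      have : y - t • g x = x := hfix
      exact (sub_eq_iff_eq_add.mp this).symm
    refine ⟨x, ?_, h1⟩
    simp only [mem_ball, dist_zero_right] at hy ⊢
    by_contra hcon
    push Not at hcon
    rw [h0 _ hcon, smul_zero, add_zero] at h1
    rw [h1] at hcon
    linarith

theorem pert_vol (g : E → E) (g' : E → E →L[ℝ] E) (K : NNReal) (hg : LipschitzWith K g)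
    (h0 : ∀ x, 1 ≤ ‖x‖ → g x = 0) (hd : ∀ x ∈ ball (0:E) 1, HasFDerivAt g (g' x) x)
    (hc : ContinuousOn g' (ball 0 1)) (t : ℝ) (ht0 : 0 < t) (ht : t * K < 1) :
    IntegrableOn (fun x => (ContinuousLinearMap.id ℝ E + t • g' x).det) (ball 0 1) μ ∧
    ∫ x in ball 0 1, (ContinuousLinearMap.id ℝ E + t • g' x).det ∂μ = μ.real (ball 0 1) := by
  obtain ⟨hinj, himg⟩ := pert_image g K hg h0 t ht0 ht
  have hderiv : ∀ x ∈ ball (0:E) 1, HasFDerivWithinAt (fun x => x + t • g x)
      (ContinuousLinearMap.id ℝ E + t • g' x) (ball 0 1) x := by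
    intro x hx
    exact ((hasFDerivAt_id x).add ((hd x hx).const_smul t)).hasFDerivWithinAt
  have hbd : ∀ x ∈ ball (0:E) 1, ‖t • g' x‖ < 1 := by
    intro x hx
    rw [norm_smul, Real.norm_of_nonneg ht0.le]
    have := (hd x hx).le_of_lipschitz hg
    calc t * ‖g' x‖ ≤ t * K := mul_le_mul_of_nonneg_left this ht0.le
      _ < 1 := ht
  have hpos : ∀ x ∈ ball (0:E) 1, 0 < (ContinuousLinearMap.id ℝ E + t • g' x).det :=
    fun x hx => det_pos_of_norm_lt_one _ (hbd x hx)
  have hm : MeasurableSet (ball (0:E) 1) := measurableSet_ball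
  have hlint := lintegral_abs_det_fderiv_eq_addHaar_image μ hm hderiv (hinj.mono (subset_univ _))
  rw [himg] at hlint
  have hae : AEStronglyMeasurable (fun x => (ContinuousLinearMap.id ℝ E + t • g' x).det)
      (μ.restrict (ball 0 1)) := by
    apply ContinuousOn.aestronglyMeasurable _ hm
    apply ContinuousLinearMap.continuous_det.comp_continuousOn
    exact continuousOn_const.add (hc.const_smul t)
  have hfin : μ (ball (0:E) 1) < ⊤ := measure_ball_lt_top
  constructor
  · refine ⟨hae, ?_⟩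
    rw [hasFiniteIntegral_iff_norm]
    calc ∫⁻ x in ball 0 1, ENNReal.ofReal ‖(ContinuousLinearMap.id ℝ E + t • g' x).det‖ ∂μ
        = μ (ball 0 1) := hlint
      _ < ⊤ := hfin
  · have h1 := integral_image_eq_integral_abs_det_fderiv_smul μ hm hderiv (hinj.mono (subset_univ _))
      (fun _ => (1:ℝ))
    rw [himg] at h1
    have h2 : ∫ x in ball (0:E) 1, |(ContinuousLinearMap.id ℝ E + t • g' x).det| • (1:ℝ) ∂μ
        = ∫ x in ball 0 1, (ContinuousLinearMap.id ℝ E + t • g' x).det ∂μ := by
      apply setIntegral_congr_fun hm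
      intro x hx
      simp only [smul_eq_mul, mul_one]
      exact abs_of_pos (hpos x hx)
    rw [← h2, ← h1]
    simp [Measure.real]

theorem pert_vol_one (g : E → E) (g' : E → E →L[ℝ] E) (K : NNReal) (hg : LipschitzWith K g)
    (h0 : ∀ x, 1 ≤ ‖x‖ → g x = 0) (hd : ∀ x ∈ ball (0:E) 1, HasFDerivAt g (g' x) x)
    (hc : ContinuousOn g' (ball 0 1)) :
    ∫ x in ball 0 1, (ContinuousLinearMap.id ℝ E + g' x).det ∂μ = μ.real (ball 0 1) := by
  obtain ⟨s, v, c, hv, hA⟩ := det_interp (E := E) (1 / ((K:ℝ) + 1)) (by positivity)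
  have hK : (0:ℝ) ≤ K := K.2
  have ht : ∀ i ∈ s, v i * K < 1 := by
    intro i hi
    have h1 := (hv i hi).2
    rw [lt_div_iff₀ (by positivity)] at h1
    nlinarith [(hv i hi).1]
  have h1 : ∫ x in ball 0 1, (ContinuousLinearMap.id ℝ E + g' x).det ∂μ
      = ∑ i ∈ s, c i * μ.real (ball 0 1) := by
    have h2 : ∀ x, (ContinuousLinearMap.id ℝ E + g' x).det
        = ∑ i ∈ s, c i * (ContinuousLinearMap.id ℝ E + (v i) • g' x).det := fun x => hA (g' x)
    simp_rw [h2]
    rw [integral_finsetSum]
    · apply Finset.sum_congr rfl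
      intro i hi
      rw [integral_const_mul, (pert_vol μ g g' K hg h0 hd hc (v i) (hv i hi).1 (ht i hi)).2]
    · intro i hi
      exact (pert_vol μ g g' K hg h0 hd hc (v i) (hv i hi).1 (ht i hi)).1.const_mul _
  have h3 : ∑ i ∈ s, c i = 1 := by
    have := hA 0
    simp [ContinuousLinearMap.det] at this
    exact this.symm
  rw [h1, ← Finset.sum_mul, h3, one_mul]

end vol

section retr

variable {E : Type*} [NormedAddCommGroup E] [InnerProductSpace ℝ E] [FiniteDimensional ℝ E]

omit [FiniteDimensional ℝ E] in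
/-- extension by zero of a Lipschitz map of the closed unit ball vanishing on the sphere -/
theorem lip_ext (h : E → E) (K : NNReal) (hh : LipschitzOnWith K h (closedBall 0 1))
    (hs : ∀ x, ‖x‖ = 1 → h x = 0) :
    LipschitzWith K (fun x => if ‖x‖ < 1 then h x else 0) := by
  have key : ∀ x y : E, ‖x‖ < 1 → ¬ ‖y‖ < 1 → ‖h x‖ ≤ K * ‖x - y‖ := by
    intro x y hx hy
    push Not at hy
    have hcont : ContinuousOn (fun s : ℝ => ‖x + s • (y - x)‖) (Icc 0 1) := by fun_prop
    have himg := intermediate_value_Icc (zero_le_one) hcont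
    have : (1:ℝ) ∈ Icc (‖x + (0:ℝ) • (y - x)‖) (‖x + (1:ℝ) • (y - x)‖) := by
      constructor
      · rw [zero_smul, add_zero]; exact hx.le
      · rw [one_smul, add_sub_cancel]; exact hy
    obtain ⟨s, hs', hs0⟩ := himg this
    simp only at hs0
    set z := x + s • (y - x) with hz
    have h1 : h z = 0 := hs z hs0
    have h2 := hh.norm_sub_le (x := x) (y := z) (by simpa using hx.le) (by simpa using hs0.le)
    rw [h1, sub_zero] at h2
    refine h2.trans ?_
    apply mul_le_mul_of_nonneg_left _ K.2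
    have h3 : x - z = s • (x - y) := by
      rw [hz, ← sub_sub, sub_self, zero_sub, ← smul_neg, neg_sub]
    rw [h3, norm_smul, Real.norm_of_nonneg hs'.1]
    nlinarith [norm_nonneg (x - y), hs'.2]
  apply LipschitzWith.of_dist_le_mul
  intro x y
  rw [dist_eq_norm, dist_eq_norm]
  by_cases hx : ‖x‖ < 1 <;> by_cases hy : ‖y‖ < 1 <;> simp only [hx, hy, if_true, if_false]
  · exact hh.norm_sub_le (by simpa using hx.le) (by simpa using hy.le)
  · rw [sub_zero]; exact key x y hx hy
  · rw [zero_sub, norm_neg, norm_sub_rev]; exact key y x hy hx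
  · rw [sub_self, norm_zero]; positivity

/-- There is no `C^1` retraction of the closed unit ball onto the sphere. -/
theorem no_retraction (r : E → E) (hr : ∀ x, ‖x‖ ≤ 1 → ContDiffAt ℝ 1 r x)
    (h1 : ∀ x, ‖x‖ ≤ 1 → ‖r x‖ = 1) (h2 : ∀ x, ‖x‖ = 1 → r x = x) : False := by
  borelize E
  let μ : Measure E := Measure.addHaar
  have hcd : ContinuousOn (fderiv ℝ r) (closedBall 0 1) := by
    intro x hx
    have := (hr x (by simpa using hx)).fderiv_right (m := 0) (by simp)
    exact this.continuousAt.continuousWithinAt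
  have hcpt : IsCompact (closedBall (0:E) 1) := isCompact_closedBall 0 1
  obtain ⟨C, hC⟩ := hcpt.exists_bound_of_continuousOn hcd
  have hda : ∀ x, ‖x‖ ≤ 1 → HasFDerivAt r (fderiv ℝ r x) x := fun x hx =>
    ((hr x hx).differentiableAt (by simp)).hasFDerivAt
  let C' : NNReal := Real.toNNReal (C + 1)
  have hlip : LipschitzOnWith C' (fun x => r x - x) (closedBall 0 1) := by
    apply Convex.lipschitzOnWith_of_nnnorm_hasFDerivWithin_le (𝕜 := ℝ)
      (f' := fun x => fderiv ℝ r x - ContinuousLinearMap.id ℝ E) _ _ (convex_closedBall 0 1)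
    · intro x hx
      exact ((hda x (by simpa using hx)).sub (hasFDerivAt_id x)).hasFDerivWithinAt
    · intro x hx
      rw [← NNReal.coe_le_coe]
      have : ‖fderiv ℝ r x - ContinuousLinearMap.id ℝ E‖ ≤ C + 1 := by
        refine (norm_sub_le _ _).trans ?_
        have h3 := hC x hx
        have h4 : ‖ContinuousLinearMap.id ℝ E‖ ≤ 1 := ContinuousLinearMap.norm_id_le
        linarith
      exact this.trans (Real.le_coe_toNNReal _)
  have hext := lip_ext (fun x => r x - x) C' hlip (fun x hx => by rw [h2 x hx, sub_self])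
  set g : E → E := fun x => if ‖x‖ < 1 then r x - x else 0 with hgdef
  have hopen : ∀ x ∈ ball (0:E) 1, g =ᶠ[nhds x] fun x => r x - x := by
    intro x hx
    filter_upwards [isOpen_ball.mem_nhds hx] with y hy
    have : ‖y‖ < 1 := by simpa using hy
    simp [hgdef, this]
  have hd : ∀ x ∈ ball (0:E) 1, HasFDerivAt g (fderiv ℝ r x - ContinuousLinearMap.id ℝ E) x := by
    intro x hx
    have hx' : ‖x‖ ≤ 1 := by simpa using (ball_subset_closedBall hx)
    exact ((hda x hx').sub (hasFDerivAt_id x)).congr_of_eventuallyEq (hopen x hx)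
  have hvol := pert_vol_one μ g (fun x => fderiv ℝ r x - ContinuousLinearMap.id ℝ E) C' hext
    (fun x hx => by simp [hgdef, not_lt.mpr hx]) hd
    ((hcd.mono ball_subset_closedBall).sub continuousOn_const)
  have hzero : ∀ x ∈ ball (0:E) 1,
      (ContinuousLinearMap.id ℝ E + (fderiv ℝ r x - ContinuousLinearMap.id ℝ E)).det = 0 := by
    intro x hx
    rw [add_sub_cancel]
    by_contra hne
    have hx' : ‖x‖ ≤ 1 := by simpa using (ball_subset_closedBall hx)
    have hunit : IsUnit (LinearMap.det ((fderiv ℝ r x : E →L[ℝ] E) : E →ₗ[ℝ] E)) := isUnit_iff_ne_zero.mpr hne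
    have hsurj : Function.Surjective (fderiv ℝ r x) := by
      have h3 := (LinearMap.equivOfIsUnitDet hunit).surjective
      intro y
      obtain ⟨v, hv⟩ := h3 y
      exact ⟨v, by simpa using hv⟩
    obtain ⟨v, hv⟩ := hsurj (r x)
    have hF : HasFDerivAt (fun t => inner ℝ (r t) (r t)) ((fderivInnerCLM ℝ (r x, r x)).comp ((fderiv ℝ r x).prod (fderiv ℝ r x))) x := (hda x hx').inner ℝ (hda x hx')
    have hconst : (fun y => inner ℝ (r y) (r y)) =ᶠ[nhds x] fun _ => (1:ℝ) := by
      filter_upwards [isOpen_ball.mem_nhds hx] with y hy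
      have hy' : ‖y‖ ≤ 1 := by simpa using (ball_subset_closedBall hy)
      rw [real_inner_self_eq_norm_sq, h1 y hy', one_pow]
    have h6 := (hasFDerivAt_const (𝕜 := ℝ) (1:ℝ) x).congr_of_eventuallyEq hconst
    have h7 := hF.unique h6
    have h8 := congrArg (fun L : E →L[ℝ] ℝ => L v) h7
    simp only [ContinuousLinearMap.comp_apply, ContinuousLinearMap.prod_apply, fderivInnerCLM_apply, hv,
      zero_apply] at h8
    rw [real_inner_self_eq_norm_sq (F := E), h1 x hx'] at h8
    norm_num at h8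
  have h9 : ∫ x in ball 0 1, (ContinuousLinearMap.id ℝ E + (fderiv ℝ r x - ContinuousLinearMap.id ℝ E)).det ∂μ = 0 := by
    rw [setIntegral_congr_fun measurableSet_ball (fun x hx => hzero x hx)]
    simp
  rw [h9] at hvol
  have h10 : 0 < μ.real (ball (0:E) 1) := by
    apply ENNReal.toReal_pos
    · exact (measure_ball_pos μ 0 one_pos).ne'
    · exact measure_ball_lt_top.ne
  linarith

end retr

section brouwer

variable {E : Type*} [NormedAddCommGroup E] [InnerProductSpace ℝ E] [FiniteDimensional ℝ E]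

/-- Brouwer for smooth maps. -/
theorem brouwer_smooth (q : E → E) (hq : ContDiff ℝ 1 q) (hb : ∀ x, ‖x‖ ≤ 1 → ‖q x‖ ≤ 1)
    (hfix : ∀ x, ‖x‖ ≤ 1 → q x ≠ x) : False := by
  let u : E → E := fun x => x - q x
  have hu : ContDiff ℝ 1 u := contDiff_id.sub hq
  have hu0 : ∀ x, ‖x‖ ≤ 1 → 0 < ‖u x‖ ^ 2 := by
    intro x hx
    have : u x ≠ 0 := fun h => hfix x hx (sub_eq_zero.mp h).symm
    positivity
  let Δ : E → ℝ := fun x => (inner ℝ x (u x)) ^ 2 + ‖u x‖ ^ 2 * (1 - ‖x‖ ^ 2)
  have hpos1 : ∀ x, ‖x‖ = 1 → 0 < inner ℝ x (u x) := by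
    intro x hx
    have h3 : 0 < ‖x - q x‖ ^ 2 := hu0 x hx.le
    rw [norm_sub_sq_real, hx] at h3
    have h4 : ‖q x‖ ^ 2 ≤ 1 := by
      have := hb x hx.le
      nlinarith [norm_nonneg (q x)]
    show 0 < inner ℝ x (x - q x)
    rw [inner_sub_right, real_inner_self_eq_norm_sq, hx]
    linarith
  have hΔ : ∀ x, ‖x‖ ≤ 1 → 0 < Δ x := by
    intro x hx
    rcases hx.lt_or_eq with h | h
    · have h5 : 0 < 1 - ‖x‖ ^ 2 := by nlinarith [norm_nonneg x]
      have := mul_pos (hu0 x hx) h5
      have h6 := sq_nonneg (inner ℝ x (u x))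
      show 0 < (inner ℝ x (u x)) ^ 2 + ‖u x‖ ^ 2 * (1 - ‖x‖ ^ 2)
      linarith
    · have h5 := hpos1 x h
      show 0 < (inner ℝ x (u x)) ^ 2 + ‖u x‖ ^ 2 * (1 - ‖x‖ ^ 2)
      rw [h]
      have : 0 < (inner ℝ x (u x)) ^ 2 := by positivity
      linarith
  let lam : E → ℝ := fun x => (-(inner ℝ x (u x)) + Real.sqrt (Δ x)) / ‖u x‖ ^ 2
  let r : E → E := fun x => x + lam x • u x
  have hinner : ContDiff ℝ 1 (fun x => inner ℝ x (u x)) := contDiff_id.inner ℝ hu
  have hΔc : ContDiff ℝ 1 Δ := by
    have h1 : ContDiff ℝ 1 (fun x => ‖u x‖ ^ 2) := hu.norm_sq ℝ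
    have h2 : ContDiff ℝ 1 (fun x : E => 1 - ‖x‖ ^ 2) := contDiff_const.sub (contDiff_id.norm_sq ℝ)
    exact (hinner.pow 2).add (h1.mul h2)
  apply no_retraction r
  · intro x hx
    have h1 : ContDiffAt ℝ 1 lam x := by
      apply ContDiffAt.div
      · exact (hinner.contDiffAt.neg).add (hΔc.contDiffAt.sqrt (hΔ x hx).ne')
      · exact (hu.norm_sq ℝ).contDiffAt
      · exact (hu0 x hx).ne'
    exact contDiffAt_id.add (h1.smul hu.contDiffAt)
  · intro x hx
    have h3 : ‖r x‖ ^ 2 = 1 := by
      show ‖x + lam x • u x‖ ^ 2 = 1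
      rw [norm_add_sq_real, norm_smul, inner_smul_right]
      have hs := Real.sq_sqrt (hΔ x hx).le
      set S := Real.sqrt (Δ x) with hS
      have hU := (hu0 x hx).ne'
      set U := ‖u x‖ ^ 2 with hUdef
      have hl : lam x * U = -(inner ℝ x (u x)) + S := div_mul_cancel₀ _ hU
      have e1 : (‖lam x‖ * ‖u x‖) ^ 2 = lam x ^ 2 * U := by
        rw [mul_pow, Real.norm_eq_abs, sq_abs]
      rw [e1]
      have e2 : S ^ 2 = (inner ℝ x (u x)) ^ 2 + U * (1 - ‖x‖ ^ 2) := hs
      have e3 : U * (‖x‖ ^ 2 + 2 * (lam x * inner ℝ x (u x)) + lam x ^ 2 * U - 1) = 0 := by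
        have : U * (‖x‖ ^ 2 + 2 * (lam x * inner ℝ x (u x)) + lam x ^ 2 * U - 1)
          = U * (‖x‖ ^ 2 - 1) + 2 * (lam x * U) * inner ℝ x (u x) + (lam x * U) ^ 2 := by ring
        rw [this, hl]
        nlinarith [e2]
      have e4 := (mul_eq_zero.mp e3).resolve_left hU
      linarith
    have h4 : ‖r x‖ = 1 := by
      have h5 : (‖r x‖ - 1) * (‖r x‖ + 1) = 0 := by ring_nf; linarith
      rcases mul_eq_zero.mp h5 with h6 | h6
      · linarith
      · linarith [norm_nonneg (r x)]
    exact h4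
  · intro x hx
    have h3 : lam x = 0 := by
      show (-(inner ℝ x (u x)) + Real.sqrt (Δ x)) / ‖u x‖ ^ 2 = 0
      have h4 : Δ x = (inner ℝ x (u x)) ^ 2 := by
        show (inner ℝ x (u x)) ^ 2 + ‖u x‖ ^ 2 * (1 - ‖x‖ ^ 2) = _
        rw [hx]; ring
      rw [h4, Real.sqrt_sq (hpos1 x hx).le]
      simp
    show x + lam x • u x = x
    rw [h3, zero_smul, add_zero]

/-- smooth uniform approximation of continuous maps -/
theorem approx (f : E → E) (hf : Continuous f) (ε : ℝ) (hε : 0 < ε) :
    ∃ p : E → E, ContDiff ℝ 1 p ∧ ∀ x, ‖p x - f x‖ < ε := by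
  obtain ⟨g, hg⟩ := exists_contMDiffMap_forall_mem_convex_of_local_const (n := 1) (I := modelWithCornersSelf ℝ E)
    (M := E) (F := E) (t := fun x => ball (f x) ε) (fun x => convex_ball _ _) (by
      intro x
      refine ⟨f x, ?_⟩
      have := Metric.continuous_iff.mp hf x ε hε
      filter_upwards [hf.continuousAt (x := x) |>.eventually (ball_mem_nhds (f x) hε)] with y hy
      rw [mem_ball, dist_comm]
      exact hy)
  refine ⟨g, g.contMDiff.contDiff, fun x => ?_⟩
  have := hg x
  rwa [mem_ball, dist_eq_norm] at this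

/-- **Brouwer fixed point theorem** for the closed unit ball of a Euclidean space. -/
theorem brouwer_ball (f : E → E) (hf : ContinuousOn f (closedBall 0 1))
    (hm : MapsTo f (closedBall 0 1) (closedBall 0 1)) : ∃ x ∈ closedBall (0:E) 1, f x = x := by
  by_contra hcon
  push Not at hcon
  let π : E → E := fun x => (max 1 ‖x‖)⁻¹ • x
  have hπc : Continuous π := by
    apply Continuous.smul _ continuous_id
    apply Continuous.inv₀ (by fun_prop)
    intro x
    have : (1:ℝ) ≤ max 1 ‖x‖ := le_max_left _ _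
    linarith
  have hπm : ∀ x, π x ∈ closedBall (0:E) 1 := by
    intro x
    have h1 : (1:ℝ) ≤ max 1 ‖x‖ := le_max_left _ _
    have h2 : ‖x‖ ≤ max 1 ‖x‖ := le_max_right _ _
    rw [mem_closedBall, dist_zero_right]
    show ‖(max 1 ‖x‖)⁻¹ • x‖ ≤ 1
    rw [norm_smul, norm_inv, Real.norm_of_nonneg (by linarith), inv_mul_le_iff₀ (by linarith), mul_one]
    exact h2
  have hπid : ∀ x, ‖x‖ ≤ 1 → π x = x := by
    intro x hx
    show (max 1 ‖x‖)⁻¹ • x = x
    rw [max_eq_left hx, inv_one, one_smul]
  let F : E → E := fun x => f (π x)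
  have hF : Continuous F := hf.comp_continuous hπc hπm
  have hF1 : ∀ x, ‖F x‖ ≤ 1 := by
    intro x
    have := hm (hπm x)
    simpa using this
  have hcpt : IsCompact (closedBall (0:E) 1) := isCompact_closedBall 0 1
  have hne : (closedBall (0:E) 1).Nonempty := ⟨0, by simp⟩
  obtain ⟨x0, hx0, hmin⟩ := hcpt.exists_isMinOn hne ((hF.sub continuous_id).norm.continuousOn)
  have hδ : 0 < ‖F x0 - x0‖ := by
    rw [norm_pos_iff, sub_ne_zero]
    have h1 : π x0 = x0 := hπid x0 (by simpa using hx0)
    show f (π x0) ≠ x0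
    rw [h1]
    exact hcon x0 hx0
  set δ := ‖F x0 - x0‖ with hδdef
  obtain ⟨p, hp, hpF⟩ := approx F hF (δ / 2) (by positivity)
  set ε := δ / 2 with hεdef
  have hε : 0 < ε := by positivity
  apply brouwer_smooth (fun x => (1 + ε)⁻¹ • p x)
  · exact contDiff_const.smul hp
  · intro x _
    rw [norm_smul, norm_inv, Real.norm_of_nonneg (by linarith), inv_mul_le_iff₀ (by linarith), mul_one]
    calc ‖p x‖ = ‖F x + (p x - F x)‖ := by rw [add_sub_cancel]
      _ ≤ ‖F x‖ + ‖p x - F x‖ := norm_add_le _ _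
      _ ≤ 1 + ε := add_le_add (hF1 x) (hpF x).le
  · intro x hx hfx
    have h1 : δ ≤ ‖F x - x‖ := hmin (show x ∈ closedBall (0:E) 1 by simpa using hx)
    have h2 : p x = (1 + ε) • x := by
      have : (1 + ε) • ((1 + ε)⁻¹ • p x) = (1 + ε) • x := congrArg (fun z => (1 + ε) • z) hfx
      rwa [smul_smul, mul_inv_cancel₀ (by linarith), one_smul] at this
    have h3 : ‖F x - x‖ < ε + ε := by
      calc ‖F x - x‖ = ‖-(p x - F x) + ε • x‖ := by
            rw [h2, add_smul, one_smul]; congr 1; abel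
        _ ≤ ‖-(p x - F x)‖ + ‖ε • x‖ := norm_add_le _ _
        _ < ε + ε := by
            rw [norm_neg, norm_smul, Real.norm_of_nonneg hε.le]
            have := hpF x
            nlinarith [norm_nonneg x]
    have h4 : ε + ε = δ := by rw [hεdef]; ring
    linarith

end brouwer

section convex

/-- Brouwer for compact convex sets of Euclidean spaces inside the unit ball. -/
theorem brouwer_convex_aux {E : Type*} [NormedAddCommGroup E] [InnerProductSpace ℝ E]
    [FiniteDimensional ℝ E] (K : Set E) (hK : IsCompact K) (hc : Convex ℝ K) (hne : K.Nonempty)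
    (hsub : K ⊆ closedBall 0 1) (f : E → E) (hf : ContinuousOn f K) (hm : MapsTo f K K) :
    ∃ x ∈ K, f x = x := by
  have hex := exists_norm_eq_iInf_of_complete_convex hne hK.isComplete hc
  choose P hPK hP using hex
  have hchar : ∀ u, ∀ w ∈ K, inner ℝ (u - P u) (w - P u) ≤ 0 := fun u =>
    (norm_eq_iInf_iff_real_inner_le_zero hc (hPK u)).mp (hP u)
  have hPid : ∀ u ∈ K, P u = u := by
    intro u hu
    have h1 := hchar u u hu
    rw [real_inner_self_eq_norm_sq] at h1
    have h2 : ‖u - P u‖ = 0 := by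
      have := sq_nonneg ‖u - P u‖
      exact pow_eq_zero_iff (two_ne_zero) |>.mp (le_antisymm h1 this)
    exact (sub_eq_zero.mp (norm_eq_zero.mp h2)).symm
  have hlip : LipschitzWith 1 P := by
    apply LipschitzWith.of_dist_le_mul
    intro x y
    rw [dist_eq_norm, dist_eq_norm, NNReal.coe_one, one_mul]
    have h1 := hchar x (P y) (hPK y)
    have h2 := hchar y (P x) (hPK x)
    have h3 : ‖P x - P y‖ ^ 2 ≤ inner ℝ (x - y) (P x - P y) := by
      rw [← real_inner_self_eq_norm_sq]
      have e1 : inner ℝ (x - P x) (P y - P x) = inner ℝ (P x) (P x - P y) - inner ℝ x (P x - P y) := by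
        rw [← inner_sub_left, ← neg_sub (P x) (P y), ← neg_sub (P x) x, inner_neg_neg]
      have e2 : inner ℝ (y - P y) (P x - P y) = inner ℝ y (P x - P y) - inner ℝ (P y) (P x - P y) := by
        rw [← inner_sub_left]
      rw [e1] at h1
      rw [e2] at h2
      rw [inner_sub_left, inner_sub_left (𝕜 := ℝ) x y]
      linarith
    have h4 := real_inner_le_norm (x - y) (P x - P y)
    by_contra hlt
    push Not at hlt
    nlinarith [norm_nonneg (x - y), norm_nonneg (P x - P y)]
  obtain ⟨x, hx, hfx⟩ := brouwer_ball (fun x => f (P x))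
    ((hf.comp_continuous hlip.continuous hPK).continuousOn)
    (fun x _ => hsub (hm (hPK x)))
  have hxK : x ∈ K := by
    rw [← hfx]; exact hm (hPK x)
  refine ⟨x, hxK, ?_⟩
  rwa [hPid x hxK] at hfx

/-- **Brouwer fixed point theorem** for nonempty compact convex sets of finite-dimensional real
normed spaces. -/
theorem brouwer_convex {F : Type*} [NormedAddCommGroup F] [NormedSpace ℝ F] [FiniteDimensional ℝ F]
    (K : Set F) (hK : IsCompact K) (hc : Convex ℝ K) (hne : K.Nonempty)
    (f : F → F) (hf : ContinuousOn f K) (hm : MapsTo f K K) : ∃ x ∈ K, f x = x := by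
  let n := Module.finrank ℝ F
  let E := EuclideanSpace ℝ (Fin n)
  have hfr : Module.finrank ℝ F = Module.finrank ℝ E := by simp [E, n]
  let e0 : F ≃L[ℝ] E := ContinuousLinearEquiv.ofFinrankEq hfr
  obtain ⟨R, hR⟩ := (hK.image e0.continuous).isBounded.subset_closedBall (0:E)
  let c : ℝ := (|R| + 1)⁻¹
  have hR1 : (0:ℝ) < |R| + 1 := by positivity
  have hc0 : c ≠ 0 := inv_ne_zero hR1.ne'
  let e : F ≃L[ℝ] E := e0.trans (ContinuousLinearEquiv.smulLeft (Units.mk0 c hc0))
  have he : ∀ x, e x = c • e0 x := fun x => rfl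
  let K' : Set E := e '' K
  have hK' : IsCompact K' := hK.image e.continuous
  have hc' : Convex ℝ K' := hc.linear_image (e : F →ₗ[ℝ] E)
  have hsub : K' ⊆ closedBall 0 1 := by
    rintro _ ⟨x, hx, rfl⟩
    rw [mem_closedBall, dist_zero_right, he, norm_smul]
    have h1 : ‖e0 x‖ ≤ R := by
      have := hR ⟨x, hx, rfl⟩
      simpa using this
    have h2 : ‖c‖ = (|R| + 1)⁻¹ := Real.norm_of_nonneg (by positivity)
    rw [h2, inv_mul_le_iff₀ hR1, mul_one]
    have := le_abs_self R
    linarith
  have hmap : MapsTo (fun y => e (f (e.symm y))) K' K' := by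
    rintro _ ⟨x, hx, rfl⟩
    refine ⟨f x, hm hx, ?_⟩
    simp
  have hcont : ContinuousOn (fun y => e (f (e.symm y))) K' := by
    apply e.continuous.comp_continuousOn
    apply hf.comp e.symm.continuous.continuousOn
    rintro _ ⟨x, hx, rfl⟩
    simpa using hx
  obtain ⟨y, ⟨x, hx, hxy⟩, hy⟩ := brouwer_convex_aux K' hK' hc' (hne.image _) hsub _ hcont hmap
  refine ⟨x, hx, ?_⟩
  rw [← hxy, e.symm_apply_apply] at hy
  exact e.injective hy

/-- **Poincare-Miranda theorem** on a box. -/
theorem poincare_miranda {ι : Type*} [Fintype ι] (a b : ι → ℝ) (hab : a ≤ b) (f : (ι → ℝ) → (ι → ℝ))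
    (hf : ContinuousOn f (Icc a b))
    (h0 : ∀ x ∈ Icc a b, ∀ i, x i = a i → f x i ≤ 0)
    (h1 : ∀ x ∈ Icc a b, ∀ i, x i = b i → 0 ≤ f x i) : ∃ x ∈ Icc a b, f x = 0 := by
  let g : (ι → ℝ) → (ι → ℝ) := fun x i => max (a i) (min (b i) (x i - f x i))
  have hg : ContinuousOn g (Icc a b) := by
    apply continuousOn_pi.mpr
    intro i
    have h2 : ContinuousOn (fun x : ι → ℝ => x i - f x i) (Icc a b) :=
      (continuous_apply i).continuousOn.sub ((continuousOn_pi.mp hf) i)
    exact ContinuousOn.sup continuousOn_const (ContinuousOn.inf continuousOn_const h2)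
  have hgm : MapsTo g (Icc a b) (Icc a b) := by
    intro x _
    refine ⟨fun i => le_max_left _ _, fun i => max_le (hab i) (min_le_left _ _)⟩
  obtain ⟨x, hx, hgx⟩ := brouwer_convex (Icc a b) isCompact_Icc (convex_Icc a b)
    ⟨a, left_mem_Icc.mpr hab⟩ g hg hgm
  refine ⟨x, hx, ?_⟩
  funext i
  have h2 : max (a i) (min (b i) (x i - f x i)) = x i := congrFun hgx i
  show f x i = 0
  by_contra hne
  rcases lt_or_gt_of_ne hne with hlt | hgt
  · -- f x i < 0
    have h3 : x i < x i - f x i := by linarith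
    have h4 : x i = b i := by
      rcases le_total (b i) (x i - f x i) with h5 | h5
      · rw [min_eq_left h5, max_eq_right (hab i)] at h2
        exact h2.symm
      · rw [min_eq_right h5] at h2
        have := le_max_right (a i) (x i - f x i)
        linarith
    have := h1 x hx i h4
    linarith
  · have h3 : x i - f x i < x i := by linarith
    have h4 : x i = a i := by
      rcases max_choice (a i) (min (b i) (x i - f x i)) with h5 | h5
      · rw [h5] at h2; exact h2.symm
      · rw [h5] at h2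
        have := min_le_right (b i) (x i - f x i)
        linarith
    have := h0 x hx i h4
    linarith

end convex

end Pool.Agent.helper55.BR
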